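import Pool.Agent.Lib.P7ee.Main

/-!
# The algebraic degree of maximal distance minimizers for finite planar sets

The plane is `ℂ` with its Euclidean distance and `μH[1]` is the one-dimensional Hausdorff measure.
The main theorem: `D n = 2 ^ (2 * n - 3)` for all `n ≥ 2` (and no admissible pair exists for `n = 1`).
-/

set_option autoImplicit false

open MeasureTheory Set Metric

namespace Pool.Agent.Results.MP_7ee880_gt.DegreeFormula

/-- `S` is a nonempty compact connected set whose closed `r`-neighbourhood contains `M`. -/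
def Comp (M : Set ℂ) (r : ℝ) (S : Set ℂ) : Prop :=
  IsConnected S ∧ IsCompact S ∧ M ⊆ cthickening r S

/-- `S` is an `r`-minimizer for `M`. -/
def IsMinimizer (M : Set ℂ) (r : ℝ) (S : Set ℂ) : Prop :=
  Comp M r S ∧ ∀ S' : Set ℂ, Comp M r S' → μH[1] S ≤ μH[1] S'

/-- The set of the energetic points of `S`. -/
def energetic (M : Set ℂ) (r : ℝ) (S : Set ℂ) : Set ℂ :=
  {x | x ∈ S ∧ ∃ y ∈ M, dist x y = r ∧ ball y r ∩ S = ∅}

/-- The subfield of `ℝ` generated over `ℚ` by the coordinates of the points of `S`. -/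
noncomputable def coordField (S : Set ℂ) : IntermediateField ℚ ℝ :=
  IntermediateField.adjoin ℚ {t : ℝ | ∃ x ∈ S, t = x.re ∨ t = x.im}

/-- The degree over `ℚ` of the field generated by the coordinates, `⊤` if it is infinite. -/
noncomputable def deg (S : Set ℂ) : ℕ∞ := Cardinal.toENat (Module.rank ℚ (coordField S))

/-- Both coordinates are rational. -/
def RatPt (z : ℂ) : Prop := (∃ q : ℚ, z.re = q) ∧ ∃ q : ℚ, z.im = q

/-- Admissible pairs. -/
def Admissible (M : Set ℂ) (r : ℝ) : Prop :=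
  M.Finite ∧ (∀ z ∈ M, RatPt z) ∧ 0 < r ∧ (∃ q : ℚ, r = q) ∧ ∀ c : ℂ, ¬ M ⊆ closedBall c r

/-- `δ(M, r)`: the least degree of the field of the energetic points of an `r`-minimizer. -/
noncomputable def delta (M : Set ℂ) (r : ℝ) : ℕ∞ :=
  ⨅ (S : Set ℂ) (_ : IsMinimizer M r S), deg (energetic M r S)

/-- `D(n)`: the supremum of `δ(M, r)` over the admissible pairs with `|M| = n`. -/
noncomputable def D (n : ℕ) : ℕ∞ :=
  ⨆ (M : Set ℂ) (r : ℝ) (_ : Admissible M r ∧ M.ncard = n), delta M r

theorem not_admissible_one {M : Set ℂ} {r : ℝ} (h : Admissible M r) : M.ncard ≠ 1 := by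
  intro h1
  obtain ⟨z, rfl⟩ := Set.ncard_eq_one.mp h1
  apply h.2.2.2.2 z
  intro w hw
  rw [Set.mem_singleton_iff.mp hw]
  exact mem_closedBall_self h.2.2.1.le

theorem D_one : D 1 = 0 := by
  have h : D 1 ≤ 0 := by
    unfold D
    refine iSup_le fun M => iSup_le fun r => iSup_le fun h => ?_
    exact absurd h.2 (not_admissible_one h.1)
  exact le_antisymm h zero_le

/-- The degree formula: `D 1 = 0` (empty supremum) and `D n = 2 ^ (2 n - 3)` for all `n ≥ 2`. -/
theorem result : D 1 = 0 ∧ ∀ n : ℕ, 2 ≤ n → D n = 2 ^ (2 * n - 3) :=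
  ⟨D_one, fun _ hn => Pool.Agent.Lib.P7ee.D_eq hn⟩

end Pool.Agent.Results.MP_7ee880_gt.DegreeFormula
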